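import Mathlib

/-!
# Perfect images of weakly θ-refinable spaces are weakly θ-refinable

Sketch of the proof. A weak θ-refinement of the cover `f⁻¹ U` of `X` gives countably many sets
`E i` which cover `X` and families `G i` of open sets such that a point of `E i` is in exactly one
member of `G i`. Hence a point of the closure of `E i` is in at most one member of `G i`. For a
finite set `I` of indices let `Z I` be the intersection of the closures of the sets `E i`,
`i ∈ I`. By compactness each fibre `K` has a finite `I` such that `K ∩ Z I` is not empty and is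
covered by the members of the families `G i`, `i ∈ I`. Points of `Z I` are in finitely many members
of these families, so there are only finitely many covers of `K ∩ Z I` by these members of the
least possible cardinality `r`. The sets of the points of `Y` whose fibres are covered in this way
give the families indexed by the pairs `(I, r)`.
-/

set_option autoImplicit false

open Set Topology

universe u v

namespace Pool.Agent.Results.MP_55e6a3_gt.PerfectImage

/-- A space is weakly θ-refinable if every open cover `U` has an open refinement which is a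
union of countably many families `V n` such that every point `x` lies in at least one and only
finitely many members of some `V n`. -/
def WeaklyThetaRefinable (X : Type u) [TopologicalSpace X] : Prop :=
  ∀ U : Set (Set X), (∀ u ∈ U, IsOpen u) → ⋃₀ U = Set.univ →
    ∃ V : ℕ → Set (Set X), (∀ n, ∀ v ∈ V n, IsOpen v ∧ ∃ u ∈ U, v ⊆ u) ∧
      ∀ x, ∃ n, {v | v ∈ V n ∧ x ∈ v}.Nonempty ∧ {v | v ∈ V n ∧ x ∈ v}.Finite

/-- The sets `E i` and the families `G i`. -/
theorem exists_exact {X : Type u} [TopologicalSpace X] (hX : WeaklyThetaRefinable X)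
    (U : Set (Set X)) (hU : ∀ u ∈ U, IsOpen u) (hcov : ⋃₀ U = Set.univ) :
    ∃ (E : ℕ → Set X) (G : ℕ → Set (Set X)), (∀ i, ∀ g ∈ G i, IsOpen g ∧ ∃ u ∈ U, g ⊆ u) ∧
      (∀ x, ∃ i, x ∈ E i ∧ ∃ g ∈ G i, x ∈ g) ∧
      ∀ i, ∀ x ∈ E i, ∀ g ∈ G i, ∀ g' ∈ G i, x ∈ g → x ∈ g' → g = g' := by
  classical
  obtain ⟨V, hV, hx⟩ := hX U hU hcov
  obtain ⟨e, he⟩ := exists_surjective_nat (ℕ × ℕ)
  refine ⟨fun i => {x | {v | v ∈ V (e i).1 ∧ x ∈ v}.Finite ∧
      {v | v ∈ V (e i).1 ∧ x ∈ v}.ncard = (e i).2 + 1},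
    fun i => {g | ∃ F : Finset (Set X), (F : Set (Set X)) ⊆ V (e i).1 ∧ F.card = (e i).2 + 1 ∧
      g = ⋂₀ (F : Set (Set X))}, ?_, ?_, ?_⟩
  · rintro i g ⟨F, hF, hcard, rfl⟩
    refine ⟨F.finite_toSet.isOpen_sInter fun v hv => (hV _ v (hF hv)).1, ?_⟩
    obtain ⟨v, hv⟩ := Finset.card_pos.1 (by omega : 0 < F.card)
    obtain ⟨u, hu, hvu⟩ := (hV _ v (hF hv)).2
    exact ⟨u, hu, (sInter_subset_of_mem hv).trans hvu⟩
  · intro x
    obtain ⟨n, hne, hfin⟩ := hx x
    have hpos : 0 < {v | v ∈ V n ∧ x ∈ v}.ncard := (ncard_pos hfin).2 hne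
    obtain ⟨i, hi⟩ := he (n, {v | v ∈ V n ∧ x ∈ v}.ncard - 1)
    refine ⟨i, ?_, ?_⟩
    · simp only [mem_ofPred_eq, hi]
      exact ⟨hfin, by omega⟩
    · refine ⟨⋂₀ (hfin.toFinset : Set (Set X)), ⟨hfin.toFinset, ?_, ?_, rfl⟩, ?_⟩
      · rw [hi]
        intro v hv
        have : v ∈ {v | v ∈ V n ∧ x ∈ v} := by simpa using hv
        exact this.1
      · rw [hi, ← ncard_eq_toFinset_card _ hfin]
        simp only
        omega
      · intro v hv
        have : v ∈ {v | v ∈ V n ∧ x ∈ v} := by simpa using hv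
        exact this.2
  · rintro i x ⟨hfin, hcard⟩ g ⟨F, hF, hFc, rfl⟩ g' ⟨F', hF', hFc', rfl⟩ hxg hxg'
    have key : ∀ F : Finset (Set X), (F : Set (Set X)) ⊆ V (e i).1 → F.card = (e i).2 + 1 →
        x ∈ ⋂₀ (F : Set (Set X)) → (F : Set (Set X)) = {v | v ∈ V (e i).1 ∧ x ∈ v} := by
      intro F hF hFc hxF
      refine eq_of_subset_of_ncard_le (fun v hv => ⟨hF hv, hxF v hv⟩) ?_ hfin
      rw [hcard, ncard_coe_finset, hFc]
    rw [key F hF hFc hxg, key F' hF' hFc' hxg']

/-- Mishchenko's counting argument: a set whose points are in finitely many members of `G` has only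
finitely many covers by `r` members of `G`, if it has no cover by less than `r` members. -/
theorem finite_covers {α : Type u} (A : Set α) (G : Set (Set α))
    (hG : ∀ x ∈ A, {g | g ∈ G ∧ x ∈ g}.Finite) (r : ℕ)
    (hr : ∀ F : Finset (Set α), (F : Set (Set α)) ⊆ G → A ⊆ ⋃₀ (F : Set (Set α)) → r ≤ F.card) :
    {F : Finset (Set α) | (F : Set (Set α)) ⊆ G ∧ F.card = r ∧ A ⊆ ⋃₀ (F : Set (Set α))}.Finite := by
  classical
  have key : ∀ t : ℕ, ∀ H : Finset (Set α), (H : Set (Set α)) ⊆ G → H.card + t = r →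
      {F : Finset (Set α) | H ⊆ F ∧ (F : Set (Set α)) ⊆ G ∧ F.card = r ∧
        A ⊆ ⋃₀ (F : Set (Set α))}.Finite := by
    intro t
    induction t with
    | zero =>
      intro H hH hc
      refine (finite_singleton H).subset ?_
      rintro F ⟨h1, -, h3, -⟩
      exact (Finset.eq_of_subset_of_card_le h1 (by omega)).symm
    | succ t ih =>
      intro H hH hc
      have hnot : ¬ A ⊆ ⋃₀ (H : Set (Set α)) := by
        intro h
        have := hr H hH h
        omega
      obtain ⟨x, hxA, hxH⟩ := not_subset.1 hnot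
      have h1 : {F : Finset (Set α) | H ⊆ F ∧ (F : Set (Set α)) ⊆ G ∧ F.card = r ∧
          A ⊆ ⋃₀ (F : Set (Set α))} ⊆ ⋃ g ∈ {g | g ∈ G ∧ x ∈ g},
          {F : Finset (Set α) | insert g H ⊆ F ∧ (F : Set (Set α)) ⊆ G ∧ F.card = r ∧
            A ⊆ ⋃₀ (F : Set (Set α))} := by
        rintro F ⟨hHF, hFG, hFc, hFA⟩
        obtain ⟨g, hgF, hxg⟩ := hFA hxA
        refine mem_biUnion (show g ∈ {g | g ∈ G ∧ x ∈ g} from ⟨hFG hgF, hxg⟩) ?_
        exact ⟨Finset.insert_subset hgF hHF, hFG, hFc, hFA⟩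
      refine ((hG x hxA).biUnion fun g hg => ?_).subset h1
      have hgH : g ∉ H := fun hgH => hxH ⟨g, hgH, hg.2⟩
      refine ih (insert g H) ?_ ?_
      · intro v hv
        rcases Finset.mem_insert.1 hv with rfl | hv
        · exact hg.1
        · exact hH hv
      · rw [Finset.card_insert_of_notMem hgH]
        omega
  have := key r ∅ (by simp) (by simp)
  refine this.subset ?_
  rintro F ⟨h1, h2, h3⟩
  exact ⟨Finset.empty_subset F, h1, h2, h3⟩

section

variable {X : Type u} [TopologicalSpace X] (E : ℕ → Set X) (G : ℕ → Set (Set X))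

/-- The intersection of the closures of the sets `E i`, `i ∈ I`. -/
def Z (I : Finset ℕ) : Set X := ⋂ i ∈ I, closure (E i)

/-- The members of the families `G i`, `i ∈ I`. -/
def GG (I : Finset ℕ) : Set (Set X) := ⋃ i ∈ I, G i

theorem isClosed_Z (I : Finset ℕ) : IsClosed (Z E I) :=
  isClosed_biInter fun _ _ => isClosed_closure

theorem mem_Z {I : Finset ℕ} {x : X} : x ∈ Z E I ↔ ∀ i ∈ I, x ∈ closure (E i) := by
  simp [Z]

omit [TopologicalSpace X] in
theorem mem_GG {I : Finset ℕ} {g : Set X} : g ∈ GG G I ↔ ∃ i ∈ I, g ∈ G i := by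
  simp [GG]

variable {E G}

theorem finite_GG (hG : ∀ i, ∀ g ∈ G i, IsOpen g)
    (hE : ∀ i, ∀ x ∈ E i, ∀ g ∈ G i, ∀ g' ∈ G i, x ∈ g → x ∈ g' → g = g')
    (I : Finset ℕ) {x : X} (hx : x ∈ Z E I) : {g | g ∈ GG G I ∧ x ∈ g}.Finite := by
  have h1 : {g | g ∈ GG G I ∧ x ∈ g} ⊆ ⋃ i ∈ I, {g | g ∈ G i ∧ x ∈ g} := by
    rintro g ⟨hg, hxg⟩
    obtain ⟨i, hi, hgi⟩ := (mem_GG G).1 hg
    exact mem_biUnion (show i ∈ (I : Set ℕ) from hi) ⟨hgi, hxg⟩
  refine (I.finite_toSet.biUnion fun i hi => ?_).subset h1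
  refine Set.Subsingleton.finite ?_
  rintro g ⟨hg, hxg⟩ g' ⟨hg', hxg'⟩
  have hx' : x ∈ closure (E i) := (mem_Z E).1 hx i hi
  obtain ⟨z, ⟨hz1, hz2⟩, hzE⟩ := mem_closure_iff.1 hx' (g ∩ g') ((hG i g hg).inter (hG i g' hg'))
    ⟨hxg, hxg'⟩
  exact hE i z hzE g hg g' hg' hz1 hz2

/-- Each compact set has a finite `I` such that its part in `Z I` is covered. -/
theorem exists_I (hG : ∀ i, ∀ g ∈ G i, IsOpen g)
    (hcov : ∀ x, ∃ i, x ∈ E i ∧ ∃ g ∈ G i, x ∈ g) {K : Set X} (hK : IsCompact K)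
    (hne : K.Nonempty) : ∃ I : Finset ℕ, (K ∩ Z E I).Nonempty ∧ K ∩ Z E I ⊆ ⋃₀ GG G I := by
  classical
  let J : ℕ → Finset ℕ := fun n =>
    Nat.rec ∅ (fun n J => if (K ∩ Z E (insert n J)).Nonempty then insert n J else J) n
  have hJ : ∀ n, J (n + 1) = if (K ∩ Z E (insert n (J n))).Nonempty then insert n (J n)
      else J n := fun n => rfl
  have hJ0 : J 0 = ∅ := rfl
  have hJne : ∀ n, (K ∩ Z E (J n)).Nonempty := by
    intro n
    induction n with
    | zero =>
      rw [hJ0]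
      obtain ⟨x, hx⟩ := hne
      exact ⟨x, hx, by simp [mem_Z]⟩
    | succ n ih =>
      rw [hJ]
      split_ifs with h
      · exact h
      · exact ih
  have hJmono : Monotone J := by
    refine monotone_nat_of_le_succ fun n => ?_
    rw [hJ]
    split_ifs with h
    · exact Finset.subset_insert _ _
    · exact le_refl _
  obtain ⟨n, hn⟩ := hK.elim_directed_cover (fun n => ⋃₀ GG G (J n) ∪ (Z E (J n))ᶜ)
    (fun n => by
      refine IsOpen.union (isOpen_sUnion fun g hg => ?_) (isClosed_Z E (J n)).isOpen_compl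
      obtain ⟨i, -, hgi⟩ := (mem_GG G).1 hg
      exact hG i g hgi)
    (by
      intro x hx
      obtain ⟨i, hxi, g, hg, hxg⟩ := hcov x
      rw [mem_iUnion]
      by_cases h : x ∈ Z E (J i)
      · refine ⟨i + 1, Or.inl ⟨g, ?_, hxg⟩⟩
        have h2 : (K ∩ Z E (insert i (J i))).Nonempty := by
          refine ⟨x, hx, ?_⟩
          rw [mem_Z]
          intro j hj
          rcases Finset.mem_insert.1 hj with rfl | hj
          · exact subset_closure hxi
          · exact (mem_Z E).1 h j hj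
        rw [hJ, if_pos h2]
        exact (mem_GG G).2 ⟨i, Finset.mem_insert_self _ _, hg⟩
      · exact ⟨i, Or.inr h⟩)
    (by
      refine Monotone.directed_le fun m n hmn => ?_
      refine union_subset_union ?_ ?_
      · rintro x ⟨g, hg, hxg⟩
        obtain ⟨i, hi, hgi⟩ := (mem_GG G).1 hg
        exact ⟨g, (mem_GG G).2 ⟨i, hJmono hmn hi, hgi⟩, hxg⟩
      · refine compl_subset_compl.2 ?_
        intro x hx
        rw [mem_Z] at hx ⊢
        exact fun i hi => hx i (hJmono hmn hi))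
  refine ⟨J n, hJne n, ?_⟩
  rintro x ⟨hxK, hxZ⟩
  exact (hn hxK).resolve_right fun h => h hxZ

end

/-- **Perfect images of weakly θ-refinable spaces are weakly θ-refinable**, without any separation
axioms. -/
theorem result {X : Type u} {Y : Type v} [TopologicalSpace X] [TopologicalSpace Y] (f : X → Y)
    (hf : Continuous f) (hsurj : Function.Surjective f) (hclosed : IsClosedMap f)
    (hcpt : ∀ y, IsCompact (f ⁻¹' {y})) (hX : WeaklyThetaRefinable X) :
    WeaklyThetaRefinable Y := by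
  classical
  intro U hU hcov
  obtain ⟨E, G, hG, hEG, hE⟩ := exists_exact hX ((fun u => f ⁻¹' u) '' U)
    (by
      rintro _ ⟨u, hu, rfl⟩
      exact (hU u hu).preimage hf)
    (by
      rw [eq_univ_iff_forall]
      intro x
      have : f x ∈ ⋃₀ U := by
        rw [hcov]
        exact mem_univ _
      obtain ⟨u, hu, hxu⟩ := this
      exact ⟨f ⁻¹' u, ⟨u, hu, rfl⟩, hxu⟩)
  have hGo : ∀ i, ∀ g ∈ G i, IsOpen g := fun i g hg => (hG i g hg).1
  -- the chosen member of `U` for the member `g` of the families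
  have hch : ∀ g : Set X, ∃ u : Set Y, (∃ i, g ∈ G i) → u ∈ U ∧ g ⊆ f ⁻¹' u := by
    intro g
    by_cases h : ∃ i, g ∈ G i
    · obtain ⟨i, hi⟩ := h
      obtain ⟨_, ⟨u, hu, rfl⟩, hgu⟩ := (hG i g hi).2
      exact ⟨u, fun _ => ⟨hu, hgu⟩⟩
    · exact ⟨∅, fun h' => absurd h' h⟩
  choose c hc using hch
  have hc' : ∀ {I : Finset ℕ} {g : Set X}, g ∈ GG G I → c g ∈ U ∧ g ⊆ f ⁻¹' (c g) := by
    intro I g hg
    obtain ⟨i, -, hgi⟩ := (mem_GG G).1 hg
    exact hc g ⟨i, hgi⟩
  -- the open sets of `Y`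
  let W : Finset ℕ → Finset (Set X) → Set Y := fun I F =>
    (f '' (Z E I \ ⋃₀ (F : Set (Set X))))ᶜ ∩ ⋂ g ∈ F, c g
  obtain ⟨e, he⟩ := exists_surjective_nat (Finset ℕ × ℕ)
  refine ⟨fun n => {w | ∃ F : Finset (Set X), (F : Set (Set X)) ⊆ GG G (e n).1 ∧
    F.card = (e n).2 + 1 ∧ w = W (e n).1 F}, ?_, ?_⟩
  · rintro n w ⟨F, hF, hFc, rfl⟩
    constructor
    · refine IsOpen.inter ?_ ?_
      · refine IsClosed.isOpen_compl (self := hclosed _ ?_)
        refine (isClosed_Z E _).sdiff (isOpen_sUnion fun g hg => ?_)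
        obtain ⟨i, -, hgi⟩ := (mem_GG G).1 (hF hg)
        exact hGo i g hgi
      · exact isOpen_biInter_finset fun g hg => hU _ (hc' (hF hg)).1
    · obtain ⟨g, hg⟩ := Finset.card_pos.1 (by omega : 0 < F.card)
      exact ⟨c g, (hc' (hF hg)).1, fun y hy => mem_iInter₂.1 hy.2 g hg⟩
  · intro y
    obtain ⟨I, hne, hsub⟩ := exists_I hGo hEG (hcpt y) (by
      obtain ⟨x, hx⟩ := hsurj y
      exact ⟨x, hx⟩)
    -- the least cardinality of a cover
    have hexr : ∃ r, ∃ F : Finset (Set X), (F : Set (Set X)) ⊆ GG G I ∧ F.card = r ∧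
        f ⁻¹' {y} ∩ Z E I ⊆ ⋃₀ (F : Set (Set X)) := by
      have hcK : IsCompact (f ⁻¹' {y} ∩ Z E I) := (hcpt y).inter_right (isClosed_Z E I)
      obtain ⟨t, ht, htf, htc⟩ := hcK.elim_finite_subcover_image (b := GG G I) (c := id)
        (by
          intro g hg
          obtain ⟨i, -, hgi⟩ := (mem_GG G).1 hg
          exact hGo i g hgi)
        (by
          intro x hx
          obtain ⟨g, hg, hxg⟩ := hsub hx
          exact mem_biUnion hg hxg)
      refine ⟨_, htf.toFinset, by simpa using ht, rfl, ?_⟩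
      intro x hx
      obtain ⟨g, hg, hxg⟩ := mem_iUnion₂.1 (htc hx)
      exact ⟨g, by simpa using hg, hxg⟩
    let r := Nat.find hexr
    obtain ⟨F, hF, hFc, hFcov⟩ := Nat.find_spec hexr
    have hmin : ∀ F' : Finset (Set X), (F' : Set (Set X)) ⊆ GG G I →
        f ⁻¹' {y} ∩ Z E I ⊆ ⋃₀ (F' : Set (Set X)) → r ≤ F'.card := by
      intro F' h1 h2
      exact Nat.find_min' hexr ⟨F', h1, rfl, h2⟩
    have hrpos : 0 < r := by
      rw [Nat.pos_iff_ne_zero]
      intro h0
      have h1 : F.card = 0 := hFc.trans h0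
      rw [Finset.card_eq_zero] at h1
      obtain ⟨x, hx⟩ := hne
      have := hFcov hx
      rw [h1] at this
      simp at this
    obtain ⟨n, hn⟩ := he (I, r - 1)
    have hn1 : (e n).1 = I := by rw [hn]
    have hn2 : (e n).2 + 1 = r := by
      rw [hn]
      simp only
      omega
    refine ⟨n, ?_, ?_⟩
    · refine ⟨W I F, ⟨F, by rw [hn1]; exact hF, by rw [hn2]; exact hFc, by rw [hn1]⟩, ?_, ?_⟩
      · rintro ⟨x, ⟨hxZ, hxF⟩, hxy⟩
        exact hxF (hFcov ⟨hxy, hxZ⟩)
      · rw [mem_iInter₂]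
        intro g hg
        by_contra hyg
        -- `g` is superfluous
        have h1 : f ⁻¹' {y} ∩ Z E I ⊆ ⋃₀ ((F.erase g : Finset (Set X)) : Set (Set X)) := by
          intro x hx
          obtain ⟨g', hg', hxg'⟩ := hFcov hx
          refine ⟨g', ?_, hxg'⟩
          rw [Finset.mem_coe, Finset.mem_erase]
          refine ⟨?_, hg'⟩
          rintro rfl
          apply hyg
          have h2 := (hc' (hF hg)).2 hxg'
          have h3 : f x = y := hx.1
          rw [← h3]
          exact h2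
        have h2 := hmin (F.erase g) ((Finset.coe_subset.2 (Finset.erase_subset g F)).trans hF) h1
        rw [Finset.card_erase_of_mem hg] at h2
        have h3 : F.card = r := hFc
        omega
    · have hfin := finite_covers (f ⁻¹' {y} ∩ Z E I) (GG G I)
        (fun x hx => finite_GG hGo hE I hx.2) r hmin
      refine (hfin.image (W I)).subset ?_
      rintro w ⟨⟨F', h1, h2, rfl⟩, hyw⟩
      rw [hn1] at h1
      rw [hn2] at h2
      refine ⟨F', ⟨h1, h2, ?_⟩, by rw [hn1]⟩
      rw [hn1] at hyw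
      intro x hx
      by_contra hxF
      exact hyw.1 ⟨x, ⟨hx.2, hxF⟩, hx.1⟩

end Pool.Agent.Results.MP_55e6a3_gt.PerfectImage
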